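import Pool.Agent.Q278.PawCone

/-!
# MP_d44e62: `F ≍_2 G` does not imply `F ≍ G`

`FreeColouring`, `ChiFreeLe`, `ChiFreeEq`, `RelatedAt` and `paw` are defined in
`Pool.Agent.Q278.PawCR`.
-/

namespace Pool.Agent.Results.MP_d44e62_co.TwoNotThree

open Q278.PawCR

/-- **Main theorem.** Let `P` be the paw (a triangle with a pendant vertex).  There is a finite
connected graph `G` containing `P` as an induced subgraph such that `P ≍_n G` holds for `n = 1`
and `n = 2` and for no `n ≥ 3`.  In particular `F ≍_n G` for one `n ≥ 2` does not imply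
`F ≍_m G` for all `m`. -/
theorem result :
    ∃ (V : Type) (_ : Finite V) (G : SimpleGraph V), G.Connected ∧ paw.Connected ∧
      Nonempty (paw ↪g G) ∧ ∀ n : ℕ, 1 ≤ n → (RelatedAt n paw G ↔ n ≤ 2) := by
  obtain ⟨X, hX, T, htri, hT⟩ := exists_T
  have hne : Nonempty X := by
    by_contra h
    rw [not_nonempty_iff] at h
    exact hT ⟨SimpleGraph.Coloring.mk (fun x => (h.false x).elim) (fun {x} => (h.false x).elim)⟩
  obtain ⟨x⟩ := hne
  let e7 : (⊤ : SimpleGraph (Fin 7)) ↪g G0 T := SimpleGraph.Embedding.sumInl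
  let eT : T ↪g G0 T := SimpleGraph.Embedding.sumInr
  refine ⟨_, inferInstance, cone (G0 T), cone_connected _, paw_connected, cone_has_paw T x, ?_⟩
  intro n hn
  constructor
  · rintro ⟨W, -, H, h1, h2⟩
    by_contra hlt
    push Not at hlt
    have h3 := h2.2 (le_pred (cone (G0 T)) T htri hT (e7.trans (coneEmb _))
      (eT.trans (coneEmb _)) hlt (Or.inr (cone_has_paw T x)) h1.1)
    omega
  · intro h2
    rcases Nat.lt_or_ge n 2 with h1 | h2'
    · obtain rfl : n = 1 := by omega
      have key : ∀ {U : Type} (L : SimpleGraph U) (a b : U), a ≠ b →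
          ChiFreeEq (⊥ : SimpleGraph Unit) L 1 := by
        intro U L a b hab
        refine ⟨⟨fun _ => 0, fun i => ⟨fun f => ?_⟩⟩, ?_⟩
        · exact hab (f.injective (Subtype.ext rfl))
        · rintro k ⟨c, -⟩
          have := (c ()).2
          omega
      exact ⟨Unit, inferInstance, ⊥, key paw 0 1 (by decide),
        key (cone (G0 T)) none (some (Sum.inr x)) (by simp)⟩
    · obtain rfl : n = 2 := by omega
      have hnx : Nonempty (Option (Fin 7 ⊕ X)) := ⟨none⟩
      exact ⟨_, inferInstance, cone (G0 T),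
        chi_eq_two _ _ (cone_le_two T htri) (cone_has_paw T x),
        chi_eq_two _ _ (self_le_two _ (x := none) (y := some (Sum.inr x)) (by simp))
          ⟨SimpleGraph.Embedding.refl⟩⟩

end Pool.Agent.Results.MP_d44e62_co.TwoNotThree
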